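import Pool.Agent.helper13.U4.SpecY

set_option autoImplicit false

/-! Row `u4:KIL`. -/

namespace Pool.Agent.U4

open Pool.Agent.UL

theorem KIL_cnt (h1 : AM1_stmt) {x y : ℕ → ℕ → Bool} {Q : ℕ → ℕ → Prop} (hO : One x y Q) (t m : ℕ)
    (L : List (ℕ × ℕ)) (hL : L.Nodup) (hm : ∀ p ∈ L, Q (t + p.1) (m + p.2) ∧ x (t + p.1) (m + p.2) = true) :
    (L.map fun p => y (t + p.1) (m + p.2)).count true ≤ 1 := by
  have h := h1 x y Q (L.map fun p => (t + p.1, m + p.2)) hO (hL.map (by
    rintro ⟨a, b⟩ ⟨c, d⟩ e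
    simp only [Prod.mk.injEq] at e ⊢
    omega)) (by
    intro p hp
    rw [List.mem_map] at hp
    obtain ⟨q, hq, rfl⟩ := hp
    exact hm q hq)
  rwa [List.map_map] at h

theorem KIL (h1 : AM1_stmt) (h2 : KLB_stmt) (h3 : KL3_stmt) (h4 : KL4_stmt) (h5 : KL5_stmt) (h6 : KL6_stmt)
    (h7 : SPR_stmt) : KIL_stmt := by
  intro h v T t x y hh hv hT hOne hYR ht htT hor hodd heven hprev r hr1 hr2
  obtain ⟨k1, k2, k3⟩ := h2
  have X : ∀ {a b a' b' : ℕ}, x a b = true → a = a' → b = b' → x a' b' = true := by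
    rintro a b _ _ h rfl rfl
    exact h
  have hex : ∀ r ≤ min (2 * (t - 1)) (2 * h + 10), ex1 (y t r) (y t (r + 1)) (y t (r + 2)) = false := by
    intro r hr
    have e1 := hprev r (by omega) (by omega)
    have e2 := hYR (t - 1) (by omega) r (by omega)
    rw [show t - 1 + 1 = t by omega] at e2
    rw [← e2, e1]
  have fin : ∀ b, b ≤ min (2 * (t - 1)) (2 * h + 10) + 1 → y t b = false → y t (b + 1) = false → y t r = false := by
    intro b hb hb0 hb1
    exact h7 (y t) _ b hex hb hb0 hb1 r (by omega)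
  have hY1 : t + 1 ≤ T → ∀ r ≤ 2 * h + 10, y t r = ex1 (y (t + 1) r) (y (t + 1) (r + 1)) (y (t + 1) (r + 2)) :=
    fun ht' r hr => hYR t (by omega) r hr
  have hY2 : t + 2 ≤ T → ∀ r ≤ 2 * h + 10, y (t + 1) r = ex1 (y (t + 2) r) (y (t + 2) (r + 1)) (y (t + 2) (r + 2)) :=
    fun ht' r hr => hYR (t + 1) (by omega) r hr
  rcases Nat.mod_two_eq_zero_or_one t with hpar | hpar
  swap
  · -- odd times
    obtain ⟨a1, a2, a3, a4⟩ := hodd hpar
    have hc := KIL_cnt h1 hOne (t - 1) 0 [(0, 0), (1, 0), (1, 1), (1, 2)] (by decide) (by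
      simp only [List.mem_cons, List.not_mem_nil, or_false, forall_eq_or_imp, forall_eq]
      refine ⟨⟨?_, ?_⟩, ⟨?_, ?_⟩, ⟨?_, ?_⟩, ⟨?_, ?_⟩⟩
      · unfold Om; omega
      · exact X a1 (by omega) (by omega)
      · unfold Om; omega
      · exact X a2 (by omega) (by omega)
      · unfold Om; omega
      · exact X a3 (by omega) (by omega)
      · unfold Om; omega
      · exact X a4 (by omega) (by omega))
    have e2 := hYR (t - 1) (by omega) 0 (by omega)
    simp only [List.map_cons, List.map_nil, show t - 1 + 1 = t by omega, Nat.zero_add, Nat.add_zero] at hc e2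
    rw [e2] at hc
    obtain ⟨-, b1, b2, -⟩ := k3 _ _ _ hc
    exact fin 0 (by omega) b1 b2
  · rcases heven hpar with ⟨q1, a, ha3, ha4, c1, c2, c3⟩ | ⟨q1, q2, a, ha3, ha4, c1, c2, c3, c4⟩ |
      ⟨q1, c1, c2, c3, c4, c5, c6, c7, c8, c9, c10⟩ | ⟨q1, ⟨c1, c2, c3, c4⟩, ⟨c5, c6, c7, c8⟩⟩ |
      ⟨q1, q2, a, ha3, ha4, ⟨c1, c2, c3, c4⟩, c5, c6, c7, c8, c9, c10⟩ |
      ⟨q1, q2, ⟨c1, c2, c3, c4⟩, c5, c6, c7, c8, c9⟩
    · -- first pattern
      have hc := KIL_cnt h1 hOne t (2 * h + a) [(0, 0), (0, 1), (0, 2)] (by decide) (by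
        simp only [List.mem_cons, List.not_mem_nil, or_false, forall_eq_or_imp, forall_eq]
        refine ⟨⟨?_, ?_⟩, ⟨?_, ?_⟩, ⟨?_, ?_⟩⟩
        · unfold Om; omega
        · exact X c1 (by omega) (by omega)
        · unfold Om; omega
        · exact X c2 (by omega) (by omega)
        · unfold Om; omega
        · exact X c3 (by omega) (by omega))
      obtain ⟨b1, b2, -⟩ := k1 (y t (2 * h + a)) (y t (2 * h + a + 1)) (y t (2 * h + a + 2)) hc
        (hex (2 * h + a) (by omega))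
      exact fin (2 * h + a) (by omega) b1 b2
    · -- second pattern
      have hc := KIL_cnt h1 hOne t (2 * h + a) [(0, 0), (0, 1), (1, 0), (1, 3)] (by decide) (by
        simp only [List.mem_cons, List.not_mem_nil, or_false, forall_eq_or_imp, forall_eq]
        refine ⟨⟨?_, ?_⟩, ⟨?_, ?_⟩, ⟨?_, ?_⟩, ⟨?_, ?_⟩⟩
        · unfold Om; omega
        · exact X c1 (by omega) (by omega)
        · unfold Om; omega
        · exact X c2 (by omega) (by omega)
        · unfold Om; omega
        · exact X c3 (by omega) (by omega)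
        · unfold Om; omega
        · exact X c4 (by omega) (by omega))
      have e1 := hY1 (by omega) (2 * h + a) (by omega)
      have e2 := hY1 (by omega) (2 * h + a + 1) (by omega)
      have hc' : [ex1 (y (t + 1) (2 * h + a)) (y (t + 1) (2 * h + a + 1)) (y (t + 1) (2 * h + a + 2)),
          ex1 (y (t + 1) (2 * h + a + 1)) (y (t + 1) (2 * h + a + 1 + 1)) (y (t + 1) (2 * h + a + 1 + 2)),
          y (t + 1) (2 * h + a), y (t + 1) (2 * h + a + 3)].count true ≤ 1 := by
        rw [← e1, ← e2]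
        exact hc
      obtain ⟨b1, b2⟩ := k2 _ _ _ _ hc'
      exact fin (2 * h + a) (by omega) (e1.trans b1) (e2.trans b2)
    · -- third pattern
      have hc := KIL_cnt h1 hOne t (2 * h - 1)
        [(0, 0), (0, 5), (0, 7), (1, 0), (1, 1), (1, 2), (1, 5), (1, 6), (1, 8), (1, 9)] (by decide) (by
        simp only [List.mem_cons, List.not_mem_nil, or_false, forall_eq_or_imp, forall_eq]
        refine ⟨⟨?_, X c1 (by omega) (by omega)⟩, ⟨?_, X c2 (by omega) (by omega)⟩, ⟨?_, X c3 (by omega) (by omega)⟩,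
          ⟨?_, X c4 (by omega) (by omega)⟩, ⟨?_, X c5 (by omega) (by omega)⟩, ⟨?_, X c6 (by omega) (by omega)⟩,
          ⟨?_, X c7 (by omega) (by omega)⟩, ⟨?_, X c8 (by omega) (by omega)⟩, ⟨?_, X c9 (by omega) (by omega)⟩,
          ⟨?_, X c10 (by omega) (by omega)⟩⟩ <;>
        · unfold Om; omega)
      obtain ⟨b1, b2⟩ := h3 (fun i => y (t + 1) (2 * h - 1 + i)) (fun i => y t (2 * h - 1 + i))
        (fun i hi => hY1 (by omega) (2 * h - 1 + i) (by omega)) hc (fun i hi => hex (2 * h - 1 + i) (by omega))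
      exact fin (2 * h - 1) (by omega) b1 b2
    · -- fourth pattern
      have hc := KIL_cnt h1 hOne t (2 * h)
        [(0, 0), (0, 5), (1, 0), (1, 1), (1, 2), (1, 5), (1, 6), (1, 7)] (by decide) (by
        simp only [List.mem_cons, List.not_mem_nil, or_false, forall_eq_or_imp, forall_eq]
        refine ⟨⟨?_, X c1 (by omega) (by omega)⟩, ⟨?_, X c5 (by omega) (by omega)⟩, ⟨?_, X c2 (by omega) (by omega)⟩,
          ⟨?_, X c3 (by omega) (by omega)⟩, ⟨?_, X c4 (by omega) (by omega)⟩, ⟨?_, X c6 (by omega) (by omega)⟩,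
          ⟨?_, X c7 (by omega) (by omega)⟩, ⟨?_, X c8 (by omega) (by omega)⟩⟩ <;>
        · unfold Om; omega)
      obtain ⟨b1, b2⟩ := h4 (fun i => y (t + 1) (2 * h + i)) (fun i => y t (2 * h + i))
        (fun i hi => hY1 (by omega) (2 * h + i) (by omega)) hc (fun i hi => hex (2 * h + i) (by omega))
      exact fin (2 * h) (by omega) b1 b2
    · -- fifth pattern
      have hc := KIL_cnt h1 hOne t (2 * h + a - 5)
        [(0, 0), (0, 5), (0, 6), (1, 0), (1, 1), (1, 2), (1, 5), (2, 4), (2, 5), (2, 6)] (by decide) (by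
        simp only [List.mem_cons, List.not_mem_nil, or_false, forall_eq_or_imp, forall_eq]
        refine ⟨⟨?_, X c1 (by omega) (by omega)⟩, ⟨?_, X c5 (by omega) (by omega)⟩, ⟨?_, X c6 (by omega) (by omega)⟩,
          ⟨?_, X c2 (by omega) (by omega)⟩, ⟨?_, X c3 (by omega) (by omega)⟩, ⟨?_, X c4 (by omega) (by omega)⟩,
          ⟨?_, X c7 (by omega) (by omega)⟩, ⟨?_, X c8 (by omega) (by omega)⟩, ⟨?_, X c9 (by omega) (by omega)⟩,
          ⟨?_, X c10 (by omega) (by omega)⟩⟩ <;>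
        · unfold Om; omega)
      obtain ⟨b1, b2⟩ := h5 (fun i => y (t + 2) (2 * h + a - 5 + i)) (fun i => y (t + 1) (2 * h + a - 5 + i))
        (fun i => y t (2 * h + a - 5 + i))
        (fun i hi => hY2 (by omega) (2 * h + a - 5 + i) (by omega))
        (fun i hi => hY1 (by omega) (2 * h + a - 5 + i) (by omega)) hc
        (fun i hi => hex (2 * h + a - 5 + i) (by omega))
      exact fin (2 * h + a - 5) (by omega) b1 b2
    · -- sixth pattern
      subst q1
      subst q2
      have hc := KIL_cnt h1 hOne 14 8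
        [(0, 0), (0, 5), (0, 7), (0, 8), (1, 0), (1, 1), (1, 2), (1, 5), (1, 6)] (by decide) (by
        simp only [List.mem_cons, List.not_mem_nil, or_false, forall_eq_or_imp, forall_eq]
        refine ⟨⟨?_, X c1 (by omega) (by omega)⟩, ⟨?_, X c5 (by omega) (by omega)⟩, ⟨?_, X c6 (by omega) (by omega)⟩,
          ⟨?_, X c7 (by omega) (by omega)⟩, ⟨?_, X c2 (by omega) (by omega)⟩, ⟨?_, X c3 (by omega) (by omega)⟩,
          ⟨?_, X c4 (by omega) (by omega)⟩, ⟨?_, X c8 (by omega) (by omega)⟩, ⟨?_, X c9 (by omega) (by omega)⟩⟩ <;>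
        · unfold Om; omega)
      obtain ⟨b1, b2⟩ := h6 (fun i => y 15 (8 + i)) (fun i => y 14 (8 + i))
        (fun i hi => hY1 (by omega) (8 + i) (by omega)) hc (fun i hi => hex (8 + i) (by omega))
      exact fin 8 (by omega) b1 b2

end Pool.Agent.U4
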